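import Pool.Agent.Helper86.Hyp.Abs
import Pool.Agent.Helper86.Hyp.Glob

/-!
# A power saving in the number of exceptional products of bad primes proves the discriminant bound

`IsHyp g F`, `discNorm g F`, `badNorm g F` (from `Pool.Graph.R_seed8.W318.SzpDefs`) say that `y² = F(x)` is a
hyperelliptic curve of genus `g` over the number field `K` and give its numbers `Δ_C` (product of
`N_v ^ n_v`, where `n_v` is the least valuation of the discriminant of a Weierstrass model over the local ring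
at `v`) and `M_C` (product of `N_v` over the places of bad reduction).
-/

set_option autoImplicit false

namespace Pool.Agent.Results.MP_ca2859_nt.PowerSavingSuffices

open Polynomial NumberField IsDedekindDomain
open Pool.Agent.W318

/-- a class of curves `y² = F(x)` over `K` which contains the quadratic twists `d y² = F(x)` of its members -/
def TwistClosed {K : Type} [Field K] (P : K[X] → Prop) : Prop :=
  ∀ (F : K[X]) (d : K), d ≠ 0 → P F → P (C d * F)

/-- the integers `M ≤ Z` which are equal to `M_C` for a hyperelliptic curve `C` of genus `g` of the class `P`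
with `M_C ^ κ < Δ_C ≤ Z ^ κ` -/
def Exceptional (K : Type) [Field K] [NumberField K] (g : ℕ) (P : K[X] → Prop) (κ Z : ℝ) : Set ℕ :=
  {M | (M : ℝ) ≤ Z ∧ ∃ F : K[X], IsHyp g F ∧ P F ∧ badNorm g F = M ∧
    (M : ℝ) ^ κ < (discNorm g F : ℝ) ∧ (discNorm g F : ℝ) ≤ Z ^ κ}

/-- the discriminant bound with the exponent `κ` for the curves of genus `g` of the class `P` -/
def Bound (K : Type) [Field K] [NumberField K] (g : ℕ) (P : K[X] → Prop) (κ : ℝ) : Prop :=
  ∃ c : ℝ, 0 < c ∧ ∀ F : K[X], IsHyp g F → P F → (discNorm g F : ℝ) ≤ c * (badNorm g F : ℝ) ^ κ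

/-- the number of exceptional integers up to `Z` is `O(Z ^ θ)` -/
def Few (K : Type) [Field K] [NumberField K] (g : ℕ) (P : K[X] → Prop) (κ θ : ℝ) : Prop :=
  ∃ A : ℝ, ∀ Z : ℝ, 1 ≤ Z → ((Exceptional K g P κ Z).ncard : ℝ) ≤ A * Z ^ θ

theorem one_le_badNorm {K : Type} [Field K] [NumberField K] {g : ℕ} {F : K[X]} (hF : IsHyp g F) :
    1 ≤ badNorm g F := by
  classical
  have hfin := finite_bad hF
  rw [badNorm_eq hfin.toFinset (fun v => by simp)]
  exact Nat.one_le_iff_ne_zero.mpr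
    (Finset.prod_ne_zero_iff.mpr fun v _ => Nat.one_le_iff_ne_zero.mp (one_le_absNorm v))

/-- the curves of the class -/
abbrev Obj (K : Type) [Field K] (g : ℕ) (P : K[X] → Prop) : Type := {F : K[X] // IsHyp g F ∧ P F}

theorem exceptional_eq (K : Type) [Field K] [NumberField K] (g : ℕ) (P : K[X] → Prop) (κ Z : ℝ) :
    Exceptional K g P κ Z = Helper86.Hyp.Exc (fun x : Obj K g P => badNorm g x.1)
      (fun x : Obj K g P => (discNorm g x.1 : ℝ)) κ Z := by
  ext M
  constructor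
  · rintro ⟨h1, F, h2, h3, h4, h5, h6⟩
    exact ⟨h1, ⟨F, h2, h3⟩, h4, h5, h6⟩
  · rintro ⟨h1, ⟨F, h2, h3⟩, h4, h5, h6⟩
    exact ⟨h1, F, h2, h3, h4, h5, h6⟩

theorem of_few {K : Type} [Field K] [NumberField K] {g : ℕ} (hg : 2 ≤ g) {P : K[X] → Prop}
    (hP : TwistClosed P) {κ θ : ℝ} (hκ : 4 * g + 2 < κ) (hθ0 : 0 ≤ θ)
    (hθ : Module.finrank ℚ K * θ < 1) (h : Few K g P κ θ) {κ' : ℝ}
    (hκ' : (κ - (4 * g + 2) * (Module.finrank ℚ K * θ)) / (1 - Module.finrank ℚ K * θ) < κ') :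
    Bound K g P κ' := by
  have hn : 1 ≤ Module.finrank ℚ K := Module.finrank_pos
  have hnR : (1 : ℝ) ≤ Module.finrank ℚ K := by exact_mod_cast hn
  have hD : 0 < (discr K).natAbs := Int.natAbs_pos.mpr (discr_ne_zero K)
  obtain ⟨c, hc, hb⟩ := Helper86.Hyp.barrier (α := Obj K g P) (M := fun x => badNorm g x.1)
    (fun x => one_le_badNorm x.2.1) (Δ := fun x => (discNorm g x.1 : ℝ)) (Q := (discr K).natAbs)
    (n := Module.finrank ℚ K) hD (s := (4 * g + 2) * Module.finrank ℚ K) (by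
      rintro ⟨F, hF, hPF⟩ l hl h7 hld
      have h1 : Nat.Coprime l ((discr K).natAbs * badNorm g F) :=
        (Nat.Prime.coprime_iff_not_dvd hl).mpr hld
      have h2 : Nat.Coprime l (discr K).natAbs := Nat.Coprime.coprime_mul_right_right h1
      have h3 : Nat.Coprime l (badNorm g F) := Nat.Coprime.coprime_mul_left_right h1
      obtain ⟨h4, h5⟩ := Helper86.Hyp.norm_tw hg hF hl.squarefree
        (hl.odd_of_ne_two (by omega)) h2 h3
      have h6 : ((Helper86.Hyp.tw l : ℤ) : K) ≠ 0 := Helper86.Hyp.tw_ne_zero hl.ne_zero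
      refine ⟨⟨_, Helper86.Hyp.isHyp_C_mul hF h6, hP F _ h6 hPF⟩, h4, ?_⟩
      change (discNorm g _ : ℝ) = (discNorm g F : ℝ) * _
      rw [h5]
      push_cast
      rw [← pow_mul, ← Real.rpow_natCast]
      congr 2
      push_cast
      ring) hn (by positivity) (κ := κ) (θ := θ) (by linarith [Nat.cast_nonneg (α := ℝ) g])
      (by nlinarith) hθ0 hθ (by
        obtain ⟨A, hA⟩ := h
        refine ⟨A, fun Z hZ => ?_⟩
        rw [← exceptional_eq]
        exact hA Z hZ) (κ' := κ') (by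
        refine lt_of_le_of_lt (le_of_eq ?_) hκ'
        congr 1
        ring)
  exact ⟨c, hc, fun F hF hPF => hb ⟨F, hF, hPF⟩⟩

theorem few_of {K : Type} [Field K] [NumberField K] {g : ℕ} {P : K[X] → Prop} {κ₀ κ θ : ℝ}
    (h : Bound K g P κ₀) (hκ : κ₀ < κ) (hθ : 0 ≤ θ) :
    Few K g P κ θ := by
  obtain ⟨c, hc, hb⟩ := h
  obtain ⟨A, hA⟩ := Helper86.Hyp.exc_bounded (α := Obj K g P) (M := fun x => badNorm g x.1)
    (fun x => one_le_badNorm x.2.1) (Δ := fun x => (discNorm g x.1 : ℝ)) (κ₀ := κ₀) (c := c)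
    (fun x => hb x.1 x.2.1 x.2.2) hκ
  refine ⟨A, fun Z hZ => ?_⟩
  rw [exceptional_eq]
  refine (hA Z).trans ?_
  have hA0 : 0 ≤ A := (Nat.cast_nonneg _).trans (hA Z)
  exact le_mul_of_one_le_right hA0 (Real.one_le_rpow hZ hθ)

/-- **Theorem.** Let `K` be a number field of degree `n` and `g ≥ 2`.

(1) Let `C : y² = F(x)` be a hyperelliptic curve of genus `g` over `K` and let `D` be an odd squarefree natural
number prime to `M_C` and to the discriminant of `K`. For the integer `d = ± D` which is `1` modulo `4` the twist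
`d y² = F(x)` has `M = M_C D ^ n` and `Δ = Δ_C D ^ (n (4 g + 2))`.

(2) Let `P` be a class of curves which is closed under quadratic twists, `κ > 4 g + 2` and `0 ≤ θ < 1 / n`. If the
number of the integers `M ≤ Z` which are `M_C` for a curve `C` of `P` with `M_C ^ κ < Δ_C ≤ Z ^ κ` is
`O(Z ^ θ)`, then there are no exceptions for larger exponents: `Δ_C ≤ c M_C ^ κ'` for ALL curves of `P`, for
each `κ' > (κ - (4 g + 2) n θ) / (1 - n θ)`.

(3) The discriminant bound for `P` (with some exponent) is true if and only if `O(Z ^ θ)` holds for some `κ` and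
some `θ < 1 / n`; then for all large `κ` and for `θ = 0`.

(4) For `κ₀ ≥ 4 g + 2` the discriminant bound is true with all exponents `κ > κ₀` if and only if `O(Z ^ θ)` holds
for all `κ > κ₀` and all `θ > 0`. -/
theorem result (K : Type) [Field K] [NumberField K] (g : ℕ) (hg : 2 ≤ g) :
    (∀ F : K[X], IsHyp g F → ∀ D : ℕ, Squarefree D → Odd D → Nat.Coprime D (discr K).natAbs →
      Nat.Coprime D (badNorm g F) → ∃ d : ℤ, d.natAbs = D ∧ d % 4 = 1 ∧
        badNorm g (C (d : K) * F) = badNorm g F * D ^ Module.finrank ℚ K ∧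
        discNorm g (C (d : K) * F) =
          discNorm g F * D ^ (Module.finrank ℚ K * (4 * g + 2))) ∧
    (∀ P : K[X] → Prop, TwistClosed P → ∀ κ θ : ℝ, 4 * g + 2 < κ → 0 ≤ θ →
      Module.finrank ℚ K * θ < 1 → Few K g P κ θ → ∀ κ' : ℝ,
        (κ - (4 * g + 2) * (Module.finrank ℚ K * θ)) / (1 - Module.finrank ℚ K * θ) < κ' →
        Bound K g P κ') ∧
    (∀ P : K[X] → Prop, TwistClosed P →
      ((∃ κ : ℝ, Bound K g P κ) ↔
        ∃ κ θ : ℝ, 4 * g + 2 < κ ∧ 0 ≤ θ ∧ Module.finrank ℚ K * θ < 1 ∧ Few K g P κ θ) ∧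
      ((∃ κ : ℝ, Bound K g P κ) → ∃ κ₀ : ℝ, ∀ κ : ℝ, κ₀ < κ → Few K g P κ 0)) ∧
    (∀ P : K[X] → Prop, TwistClosed P → ∀ κ₀ : ℝ, 4 * g + 2 ≤ κ₀ →
      ((∀ κ : ℝ, κ₀ < κ → Bound K g P κ) ↔
        ∀ κ θ : ℝ, κ₀ < κ → 0 < θ → Few K g P κ θ)) := by
  have hn : 1 ≤ Module.finrank ℚ K := Module.finrank_pos
  have hnR : (1 : ℝ) ≤ Module.finrank ℚ K := by exact_mod_cast hn
  refine ⟨?_, ?_, ?_, ?_⟩
  · intro F hF D hD hodd hd hb
    obtain ⟨h1, h2⟩ := Helper86.Hyp.norm_tw hg hF hD hodd hd hb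
    refine ⟨Helper86.Hyp.tw D, ?_, ?_, h1, ?_⟩
    · unfold Helper86.Hyp.tw
      split_ifs <;> simp
    · obtain ⟨m, hm⟩ := Helper86.Hyp.tw_mod hodd
      rw [hm]
      omega
    · rw [h2, ← pow_mul]
  · intro P hP κ θ hκ hθ0 hθ hfew κ' hκ'
    exact of_few hg hP hκ hθ0 hθ hfew hκ'
  · intro P hP
    refine ⟨⟨?_, ?_⟩, ?_⟩
    · rintro ⟨κ, hκ⟩
      refine ⟨max κ (4 * g + 2) + 1, 0, ?_, le_refl _, by simp, ?_⟩
      · exact lt_of_le_of_lt (le_max_right _ _) (lt_add_one _)
      · exact few_of hκ (lt_of_le_of_lt (le_max_left _ _) (lt_add_one _)) (le_refl _)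
    · rintro ⟨κ, θ, hκ, hθ0, hθ, hfew⟩
      exact ⟨_, of_few hg hP hκ hθ0 hθ hfew (lt_add_one _)⟩
    · rintro ⟨κ, hκ⟩
      exact ⟨κ, fun κ₁ h1 => few_of hκ h1 (le_refl _)⟩
  · intro P hP κ₀ hκ₀
    constructor
    · intro h κ θ hκ hθ
      exact few_of (h ((κ₀ + κ) / 2) (by linarith)) (by linarith) hθ.le
    · intro h κ' hκ'
      -- choose `κ` and `θ`
      set n : ℝ := (Module.finrank ℚ K : ℝ) with hn'
      set κ : ℝ := (κ₀ + κ') / 2 with hκd
      have hκ1 : κ₀ < κ := by linarith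
      have hκ2 : κ < κ' := by linarith
      have hκ'0 : 0 < κ' := by
        have : (0 : ℝ) ≤ g := Nat.cast_nonneg g
        linarith
      set θ : ℝ := (κ' - κ) / (2 * κ' * n) with hθd
      have hg0 : (0 : ℝ) ≤ g := Nat.cast_nonneg g
      have hθ0 : 0 < θ := by
        rw [hθd]
        have : 0 < κ' - κ := by linarith
        positivity
      have hnθ : n * θ = (κ' - κ) / (2 * κ') := by
        rw [hθd]
        field_simp
      have hnθ1 : n * θ < 1 := by
        rw [hnθ, div_lt_one (by positivity)]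
        linarith
      refine of_few hg hP (κ := κ) (θ := θ) (by linarith) hθ0.le hnθ1 (h κ θ hκ1 hθ0) ?_
      rw [div_lt_iff₀ (by linarith)]
      have h1 : κ' * (n * θ) = (κ' - κ) / 2 := by
        rw [hnθ]
        field_simp
      have h2 : 0 ≤ (4 * (g : ℝ) + 2) * (n * θ) := by positivity
      nlinarith

end Pool.Agent.Results.MP_ca2859_nt.PowerSavingSuffices
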